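import Pool.Agent.Helper84.PH.Defs

/-!
# Two-sided bounds for continuous homogeneous functions on the tangent bundle
-/

open scoped Manifold ContDiff Topology
open Set Filter

noncomputable section

namespace HolPH

/-- The local form of the bound. -/
theorem bound_local {M : Type*} [TopologicalSpace M] [ChartedSpace C3 M] [IsManifold I3 ω M]
    (N G : TangentBundle I3 M → ℝ) (hN : Continuous N) (hG : Continuous G)
    (hNpos : ∀ (x : M) (v : TangentSpace I3 x), v ≠ 0 → 0 < N ⟨x, v⟩)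
    (hNs : ∀ (x : M) (c : ℝ) (v : TangentSpace I3 x), N ⟨x, c • v⟩ = |c| * N ⟨x, v⟩)
    (hGs : ∀ (x : M) (c : ℝ) (v : TangentSpace I3 x), G ⟨x, c • v⟩ = |c| * G ⟨x, v⟩) (x₀ : M) :
    ∃ C : ℝ, 0 < C ∧ ∀ᶠ x in 𝓝 x₀, ∀ v : TangentSpace I3 x, G ⟨x, v⟩ ≤ C * N ⟨x, v⟩ := by
  have : IsManifold I3 1 M := IsManifold.of_le (n := ω) le_top
  set e := trivializationAt C3 (TangentSpace I3 : M → Type _) x₀ with he
  have hx₀ : x₀ ∈ e.baseSet := mem_baseSet_trivializationAt C3 (TangentSpace I3 : M → Type _) x₀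
  have hcont : ContinuousOn (fun z : M × C3 =>
      (Bundle.TotalSpace.mk' C3 z.1 (e.symm z.1 z.2) : TangentBundle I3 M))
      (e.baseSet ×ˢ univ) := e.continuousOn_symm
  have hopen : IsOpen (e.baseSet ×ˢ (univ : Set C3)) := e.open_baseSet.prod isOpen_univ
  have hat : ∀ w : C3, ContinuousAt (fun z : M × C3 =>
      (Bundle.TotalSpace.mk' C3 z.1 (e.symm z.1 z.2) : TangentBundle I3 M)) (x₀, w) := fun w =>
    hcont.continuousAt (hopen.mem_nhds ⟨hx₀, trivial⟩)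
  have hNat : ∀ w : C3, ContinuousAt (fun z : M × C3 => N ⟨z.1, e.symm z.1 z.2⟩) (x₀, w) :=
    fun w => ContinuousAt.comp (g := N) hN.continuousAt (hat w)
  have hGat : ∀ w : C3, ContinuousAt (fun z : M × C3 => G ⟨z.1, e.symm z.1 z.2⟩) (x₀, w) :=
    fun w => ContinuousAt.comp (g := G) hG.continuousAt (hat w)
  have hlin : ∀ (x : M) (hx : x ∈ e.baseSet) (w : C3),
      e.symm x w = (e.linearEquivAt ℂ x hx).symm w := fun x hx w =>
    (e.linearEquivAt_symm_apply (R := ℂ) x hx w).symm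
  have hne : ∀ (x : M) (_ : x ∈ e.baseSet) (w : C3), w ≠ 0 → e.symm x w ≠ 0 := by
    intro x hx w hw h0
    rw [hlin x hx] at h0
    exact hw ((map_eq_zero_iff _ (e.linearEquivAt ℂ x hx).symm.injective).1 h0)
  -- bound at `x₀`
  have hS : IsCompact (Metric.sphere (0 : C3) 1) := isCompact_sphere 0 1
  have hSne : ∀ w ∈ Metric.sphere (0 : C3) 1, w ≠ 0 := by
    intro w hw h0
    rw [h0, Metric.mem_sphere, dist_self] at hw
    exact zero_ne_one hw
  have hemb : ∀ w : C3, ContinuousAt (fun w : C3 => ((x₀, w) : M × C3)) w := fun w => by fun_prop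
  have hR : ContinuousOn (fun w : C3 => G ⟨x₀, e.symm x₀ w⟩ / N ⟨x₀, e.symm x₀ w⟩)
      (Metric.sphere (0 : C3) 1) := by
    intro w hw
    refine ContinuousAt.continuousWithinAt (ContinuousAt.div ?_ ?_ ?_)
    · exact ContinuousAt.comp (f := fun w : C3 => ((x₀, w) : M × C3)) (hGat w) (hemb w)
    · exact ContinuousAt.comp (f := fun w : C3 => ((x₀, w) : M × C3)) (hNat w) (hemb w)
    · exact (hNpos x₀ _ (hne x₀ hx₀ w (hSne w hw))).ne'
  obtain ⟨C₀, hC₀⟩ := (hS.image_of_continuousOn hR).bddAbove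
  have hC : ∀ w ∈ Metric.sphere (0 : C3) 1,
      G ⟨x₀, e.symm x₀ w⟩ < (|C₀| + 1) * N ⟨x₀, e.symm x₀ w⟩ := by
    intro w hw
    have h1 : G ⟨x₀, e.symm x₀ w⟩ / N ⟨x₀, e.symm x₀ w⟩ ≤ C₀ := hC₀ ⟨w, hw, rfl⟩
    have hp := hNpos x₀ _ (hne x₀ hx₀ w (hSne w hw))
    rw [div_le_iff₀ hp] at h1
    have h2 : C₀ ≤ |C₀| := le_abs_self _
    nlinarith
  refine ⟨|C₀| + 1, by positivity, ?_⟩
  have hev : ∀ᶠ x in 𝓝 x₀, ∀ w ∈ Metric.sphere (0 : C3) 1,
      G ⟨x, e.symm x w⟩ < (|C₀| + 1) * N ⟨x, e.symm x w⟩ := by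
    refine hS.eventually_forall_of_forall_eventually ?_
    intro w hw
    have h1 : ContinuousAt (fun z : M × C3 => (|C₀| + 1) * N ⟨z.1, e.symm z.1 z.2⟩) (x₀, w) :=
      continuousAt_const.mul (hNat w)
    exact (hGat w).eventually_lt h1 (hC w hw)
  filter_upwards [hev, e.open_baseSet.mem_nhds hx₀] with x hx hxb v
  set w := e.linearEquivAt ℂ x hxb v with hw
  have hv : v = (e.linearEquivAt ℂ x hxb).symm w := by rw [hw, LinearEquiv.symm_apply_apply]
  by_cases hw0 : w = 0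
  · have hv0 : v = (0 : ℝ) • v := by
      rw [zero_smul, hv, hw0, map_zero]
    rw [hv0, hNs, hGs, abs_zero, zero_mul, zero_mul, mul_zero]
  · have hn : 0 < ‖w‖ := norm_pos_iff.2 hw0
    set u : C3 := (‖w‖⁻¹ : ℝ) • w with hu
    have hu1 : u ∈ Metric.sphere (0 : C3) 1 := by
      rw [mem_sphere_zero_iff_norm, hu, norm_smul, norm_inv, norm_norm, inv_mul_cancel₀ hn.ne']
    have hvu : v = (‖w‖ : ℝ) • (e.symm x u : TangentSpace I3 x) := by
      rw [hlin x hxb, hv, hu]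
      have h1 : ((‖w‖⁻¹ : ℝ) • w : C3) = ((‖w‖⁻¹ : ℝ) : ℂ) • w := by
        rw [Complex.coe_smul]
      rw [h1, map_smul]
      have h2 : ∀ (r : ℝ) (z : TangentSpace I3 x), r • z = ((r : ℝ) : ℂ) • z := fun r z => by
        rw [Complex.coe_smul]
      rw [h2, smul_smul, ← Complex.ofReal_mul, mul_inv_cancel₀ hn.ne', Complex.ofReal_one, one_smul]
    rw [hvu, hNs, hGs, abs_of_pos hn]
    have h3 := (hx u hu1).le
    nlinarith

/-- BND. Continuous homogeneous functions on the tangent bundle of a compact manifold are bounded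
by a multiple of a positive one. -/
theorem bound {M : Type*} [TopologicalSpace M] [ChartedSpace C3 M] [IsManifold I3 ω M]
    [CompactSpace M] (N G : TangentBundle I3 M → ℝ) (hN : Continuous N) (hG : Continuous G)
    (hNpos : ∀ (x : M) (v : TangentSpace I3 x), v ≠ 0 → 0 < N ⟨x, v⟩)
    (hNs : ∀ (x : M) (c : ℝ) (v : TangentSpace I3 x), N ⟨x, c • v⟩ = |c| * N ⟨x, v⟩)
    (hGs : ∀ (x : M) (c : ℝ) (v : TangentSpace I3 x), G ⟨x, c • v⟩ = |c| * G ⟨x, v⟩) :
    ∃ C : ℝ, 0 < C ∧ ∀ v, G v ≤ C * N v := by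
  have hN0 : ∀ (x : M) (v : TangentSpace I3 x), 0 ≤ N ⟨x, v⟩ := by
    intro x v
    by_cases hv : v = 0
    · have h1 := hNs x 0 v
      rw [zero_smul, abs_zero, zero_mul] at h1
      rw [hv, h1]
    · exact (hNpos x v hv).le
  have key : ∃ C : ℝ, 0 < C ∧ ∀ x ∈ (univ : Set M), ∀ v : TangentSpace I3 x,
      G ⟨x, v⟩ ≤ C * N ⟨x, v⟩ := by
    refine isCompact_univ.induction_on (p := fun s => ∃ C : ℝ, 0 < C ∧ ∀ x ∈ s,
      ∀ v : TangentSpace I3 x, G ⟨x, v⟩ ≤ C * N ⟨x, v⟩) ?_ ?_ ?_ ?_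
    · exact ⟨1, one_pos, fun x hx => absurd hx (notMem_empty x)⟩
    · rintro s t hst ⟨C, hC, h⟩
      exact ⟨C, hC, fun x hx => h x (hst hx)⟩
    · rintro s t ⟨C, hC, h⟩ ⟨C', hC', h'⟩
      refine ⟨max C C', lt_max_of_lt_left hC, ?_⟩
      rintro x (hx | hx) v
      · exact (h x hx v).trans (mul_le_mul_of_nonneg_right (le_max_left _ _) (hN0 x v))
      · exact (h' x hx v).trans (mul_le_mul_of_nonneg_right (le_max_right _ _) (hN0 x v))
    · intro x _
      obtain ⟨C, hC, h⟩ := bound_local N G hN hG hNpos hNs hGs x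
      exact ⟨{y | ∀ v : TangentSpace I3 y, G ⟨y, v⟩ ≤ C * N ⟨y, v⟩},
        mem_nhdsWithin_of_mem_nhds h, C, hC, fun y hy => hy⟩
  obtain ⟨C, hC, h⟩ := key
  exact ⟨C, hC, fun v => h v.1 trivial v.2⟩

end HolPH
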